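import Pool.Agent.R804.Flat.Words

/-! Flattened Stirling permutations: counting those with three runs. -/

namespace Pool.Agent.R804.Flat

def kk : List ℕ → ℕ
  | [] => 0
  | y :: t => (T y t).length

def ss : List ℕ → ℕ
  | [] => 0
  | y :: t => st y t

/-- weighted sum over the words of order `m + 1` -/
def A (Φ : ℕ → ℕ → ℕ) (m : ℕ) : ℕ := ((L m).map (fun w => Φ (kk w) (ss w))).sum

lemma A_zero (Φ : ℕ → ℕ → ℕ) : A Φ 0 = Φ 0 1 := by
  simp [A, L, kk, ss, T, st]

lemma sum_flatMap (l : List (List ℕ)) (f : List ℕ → List (List ℕ)) (g : List ℕ → ℕ) :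
    ((l.flatMap f).map g).sum = (l.map (fun w => ((f w).map g).sum)).sum := by
  induction l with
  | nil => simp
  | cons a l ih => simp [List.flatMap_cons, ih]

lemma A_succ (Φ : ℕ → ℕ → ℕ) (m : ℕ) :
    A Φ (m + 1) = A (fun k s => Φ k (s + 2) + k * Φ k s + s * Φ (k + 1) (s - 1)) m := by
  rw [A, A, L, sum_flatMap]
  congr 1
  apply List.map_congr_left
  intro w hw
  obtain ⟨h1, h2⟩ := (mem_L m w).1 hw
  have hlt : ∀ x ∈ w, x < m + 2 := fun x hx => by
    have := (mem_le h1 hx).2
    omega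
  rcases w with _ | ⟨y, t⟩
  · have := h1.1 1
    simp at this
  · rw [children, List.map_map]
    exact succ_rule Φ (hlt y (by simp)) (fun z hz => hlt z (by simp [hz]))
      (flattened_cons.1 h2).2

lemma A_congr {Φ Ψ : ℕ → ℕ → ℕ} (h : ∀ k s, Φ k s = Ψ k s) (m : ℕ) : A Φ m = A Ψ m := by
  have : Φ = Ψ := by funext k s; exact h k s
  rw [this]

lemma A_add (Φ Ψ : ℕ → ℕ → ℕ) (m : ℕ) : A (fun k s => Φ k s + Ψ k s) m = A Φ m + A Ψ m := by
  simp [A, List.sum_map_add]

lemma A_mul (c : ℕ) (Φ : ℕ → ℕ → ℕ) (m : ℕ) : A (fun k s => c * Φ k s) m = c * A Φ m := by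
  simp [A, List.sum_map_mul_left]

/-- indicator weight -/
def ind (k₀ : ℕ) (p : ℕ → ℕ) : ℕ → ℕ → ℕ := fun k s => if k = k₀ then p s else 0

lemma f1 (m : ℕ) : A (ind 0 (fun _ => 1)) m = 1 := by
  induction m with
  | zero => rw [A_zero]; rfl
  | succ m ih =>
    have : A (ind 0 (fun _ => 1)) (m + 1) = A (ind 0 (fun _ => 1)) m := by
      rw [A_succ]
      apply A_congr
      intro k s
      simp only [ind]
      rcases k with _ | k <;> simp
    rw [this, ih]

lemma g1 (m : ℕ) : A (ind 0 (fun s => s)) m = 2 * m + 1 := by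
  induction m with
  | zero => rw [A_zero]; rfl
  | succ m ih =>
    have : A (ind 0 (fun s => s)) (m + 1)
        = A (fun k s => ind 0 (fun s => s) k s + 2 * ind 0 (fun _ => 1) k s) m := by
      rw [A_succ]
      apply A_congr
      intro k s
      simp only [ind]
      rcases k with _ | k <;> simp
    rw [this, A_add, A_mul, ih, f1]
    ring

lemma h1 (m : ℕ) : A (ind 0 (fun s => s * (s - 1))) m = (2 * m + 1) * (2 * m) := by
  induction m with
  | zero => rw [A_zero]; rfl
  | succ m ih =>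
    have : A (ind 0 (fun s => s * (s - 1))) (m + 1)
        = A (fun k s => ind 0 (fun s => s * (s - 1)) k s + (4 * ind 0 (fun s => s) k s
          + 2 * ind 0 (fun _ => 1) k s)) m := by
      rw [A_succ]
      apply A_congr
      intro k s
      simp only [ind]
      rcases k with _ | k
      · rcases s with _ | s
        · simp
        · simp only [if_true, Nat.add_sub_cancel]
          rw [show s + 1 + 2 - 1 = s + 2 by omega]
          simp
          ring
      · simp
    rw [this, A_add, A_add, A_mul, A_mul, ih, f1, g1]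
    ring

lemma f2 (m : ℕ) : A (ind 1 (fun _ => 1)) m + (2 * m + 3) = 3 * 2 ^ m := by
  induction m with
  | zero => rw [A_zero]; rfl
  | succ m ih =>
    have : A (ind 1 (fun _ => 1)) (m + 1)
        = A (fun k s => 2 * ind 1 (fun _ => 1) k s + ind 0 (fun s => s) k s) m := by
      rw [A_succ]
      apply A_congr
      intro k s
      simp only [ind]
      rcases k with _ | _ | k <;> simp
    rw [this, A_add, A_mul, g1, pow_succ]
    omega

lemma g2 (m : ℕ) : A (ind 1 (fun s => s)) m + (4 * m ^ 2 + 6 * m + 4) = (3 * m + 4) * 2 ^ m := by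
  induction m with
  | zero => rw [A_zero]; rfl
  | succ m ih =>
    have : A (ind 1 (fun s => s)) (m + 1)
        = A (fun k s => 2 * ind 1 (fun s => s) k s + (2 * ind 1 (fun _ => 1) k s
          + ind 0 (fun s => s * (s - 1)) k s)) m := by
      rw [A_succ]
      apply A_congr
      intro k s
      simp only [ind]
      rcases k with _ | _ | k
      · simp
      · simp
        ring
      · simp
    rw [this, A_add, A_add, A_mul, A_mul, h1, pow_succ 2 m]
    have h2 := f2 m
    nlinarith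

lemma f3 (m : ℕ) : 2 * A (ind 2 (fun _ => 1)) m + (6 * m + 20) * 2 ^ m
    = 9 * 3 ^ m + 4 * m ^ 2 + 10 * m + 11 := by
  induction m with
  | zero => rw [A_zero]; rfl
  | succ m ih =>
    have : A (ind 2 (fun _ => 1)) (m + 1)
        = A (fun k s => 3 * ind 2 (fun _ => 1) k s + ind 1 (fun s => s) k s) m := by
      rw [A_succ]
      apply A_congr
      intro k s
      simp only [ind]
      rcases k with _ | _ | _ | k
      · simp
      · simp
      · simp
      · simp
    rw [this, A_add, A_mul, pow_succ, pow_succ]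
    have h2 := g2 m
    nlinarith

/-- the number of flattened Stirling permutations of order `n` with three runs -/
noncomputable def flat3 (n : ℕ) : ℕ :=
  Set.ncard {w : List ℕ | IsStirling n w ∧ IsFlattened w ∧ (runs w).length = 3}

lemma flat3_eq (m : ℕ) : flat3 (m + 1) = A (ind 2 (fun _ => 1)) m := by
  have h1 : {w : List ℕ | IsStirling (m + 1) w ∧ IsFlattened w ∧ (runs w).length = 3}
      = (((L m).filter (fun w => decide (kk w = 2))).toFinset : Set (List ℕ)) := by
    ext w
    simp only [Set.mem_ofPred_eq, Finset.mem_coe, List.mem_toFinset, List.mem_filter,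
      decide_eq_true_eq, mem_L]
    rw [and_assoc]
    refine and_congr_right fun hs => and_congr_right fun _ => ?_
    rcases w with _ | ⟨y, t⟩
    · have := hs.1 1
      simp at this
    · rw [length_runs, leads_cons, kk, List.length_cons]
      omega
  rw [flat3, h1, Set.ncard_coe_finset, List.toFinset_card_of_nodup ((nodup_L m).filter _), A]
  induction L m with
  | nil => simp
  | cons a l ih =>
    rw [List.filter_cons, List.map_cons, List.sum_cons, ← ih]
    by_cases h : kk a = 2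
    · simp only [h, decide_true, if_true, List.length_cons, ind]
      ring
    · simp [h, ind]

/-- `∑_{j=2}^{M} binom(M, j)` -/
lemma inner_eq (M : ℕ) :
    (((∑ j ∈ Finset.Icc 2 M, M.choose j : ℕ)) : ℤ) = 2 ^ M - 1 - M := by
  have h := Nat.sum_range_choose M
  rcases M with _ | _ | M
  · simp
  · simp
  · have e : Finset.range (M + 1 + 1 + 1) = insert 0 (insert 1 (Finset.Icc 2 (M + 1 + 1))) := by
      ext x
      simp only [Finset.mem_range, Finset.mem_insert, Finset.mem_Icc]
      omega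
    rw [e, Finset.sum_insert (by simp), Finset.sum_insert (by simp)] at h
    simp only [Nat.choose_zero_right, Nat.choose_one_right] at h
    have h2 := congrArg (fun x : ℕ => (x : ℤ)) h
    push_cast at h2 ⊢
    linarith

lemma Icc_split (N a : ℕ) (ha : a ≤ N) (F : ℕ → ℤ) :
    ∑ k ∈ Finset.Icc a N, F k = F a + ∑ k ∈ Finset.Icc (a + 1) N, F k := by
  have e : Finset.Icc a N = insert a (Finset.Icc (a + 1) N) := by
    ext x
    simp only [Finset.mem_insert, Finset.mem_Icc]
    omega
  rw [e, Finset.sum_insert (by simp)]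

lemma sum_choose_pow (N : ℕ) :
    ∑ k ∈ Finset.Icc 0 N, (N.choose k : ℤ) * 2 ^ (N - k) = 3 ^ N := by
  have h := add_pow (1 : ℤ) 2 N
  have e : Finset.Icc 0 N = Finset.range (N + 1) := by
    ext x
    simp only [Finset.mem_Icc, Finset.mem_range]
    omega
  rw [e]
  norm_num at h
  rw [h]
  exact Finset.sum_congr rfl fun k _ => by ring

lemma sum_choose_pow' (N : ℕ) :
    ∑ k ∈ Finset.Icc 0 N, (N.choose k : ℤ) * 2 ^ k = 3 ^ N := by
  have h := add_pow (2 : ℤ) 1 N
  have e : Finset.Icc 0 N = Finset.range (N + 1) := by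
    ext x
    simp only [Finset.mem_Icc, Finset.mem_range]
    omega
  rw [e]
  norm_num at h
  rw [h]
  exact Finset.sum_congr rfl fun k _ => by ring

lemma sum_choose (N : ℕ) :
    ∑ k ∈ Finset.Icc 0 N, (N.choose k : ℤ) = 2 ^ N := by
  have h := Nat.sum_range_choose N
  have e : Finset.Icc 0 N = Finset.range (N + 1) := by
    ext x
    simp only [Finset.mem_Icc, Finset.mem_range]
    omega
  rw [e]
  exact_mod_cast h

lemma sum_choose_lin (N : ℕ) :
    2 * ∑ k ∈ Finset.Icc 0 N, (N.choose k : ℤ) * ((N - k : ℕ) : ℤ) = N * 2 ^ N := by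
  have e : Finset.Icc 0 N = Finset.range (N + 1) := by
    ext x
    simp only [Finset.mem_Icc, Finset.mem_range]
    omega
  have h1 : ∑ k ∈ Finset.range (N + 1), (N.choose k : ℤ) * ((N - k : ℕ) : ℤ)
      = ∑ k ∈ Finset.range (N + 1), (N.choose k : ℤ) * (k : ℤ) := by
    rw [← Finset.sum_range_reflect]
    apply Finset.sum_congr rfl
    intro k hk
    have hk' : k ≤ N := Nat.lt_succ_iff.1 (Finset.mem_range.1 hk)
    have e1 : N + 1 - 1 - k = N - k := by omega
    rw [e1, Nat.choose_symm hk', Nat.sub_sub_self hk']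
  rw [e, two_mul]
  nth_rewrite 2 [h1]
  rw [← Finset.sum_add_distrib, ← sum_choose, e, Finset.mul_sum]
  apply Finset.sum_congr rfl
  intro k hk
  have hk' : k ≤ N := Nat.lt_succ_iff.1 (Finset.mem_range.1 hk)
  rw [Nat.cast_sub hk']
  ring

/-- the sum of the problem, with coefficient `c` in front of the second double sum -/
def rhs (c n : ℕ) : ℕ :=
  2 * ∑ k ∈ Finset.Icc 1 (n - 1), (n - 1).choose k *
      ∑ j ∈ Finset.Icc 2 (n - 1 - k), (n - 1 - k).choose j
  + c * ∑ k ∈ Finset.Icc 2 (n - 1), (n - 1).choose k *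
      ∑ j ∈ Finset.Icc 2 (n - 1 - k), (n - 1 - k).choose j
  + ∑ k ∈ Finset.Icc 3 (n - 1), (2 ^ (k - 1) - 2) * (n - 1).choose k

lemma rhs_closed (N : ℕ) : (2 * (rhs 2 (N + 1) : ℤ)) + (6 * N + 20) * 2 ^ N
    = 9 * 3 ^ N + 4 * N ^ 2 + 10 * N + 11 := by
  rcases N with _ | _ | N
  · decide
  · decide
  set M := N + 1 + 1 with hM
  have hM2 : 2 ≤ M := by omega
  let F : ℕ → ℤ := fun k => (M.choose k : ℤ) * (2 ^ (M - k) - 1 - ((M - k : ℕ) : ℤ))
  have hF0 : ∑ k ∈ Finset.Icc 0 M, F k
      = 3 ^ M - 2 ^ M - ∑ k ∈ Finset.Icc 0 M, (M.choose k : ℤ) * ((M - k : ℕ) : ℤ) := by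
    rw [← sum_choose_pow, ← sum_choose, ← Finset.sum_sub_distrib, ← Finset.sum_sub_distrib]
    exact Finset.sum_congr rfl fun k _ => by simp only [F]; ring
  have hlin := sum_choose_lin M
  have s0 := Icc_split M 0 (by omega) F
  have s1 := Icc_split M 1 (by omega) F
  let H : ℕ → ℤ := fun k => (2 ^ k - 4) * (M.choose k : ℤ)
  have hH0 : ∑ k ∈ Finset.Icc 0 M, H k = 3 ^ M - 4 * 2 ^ M := by
    rw [← sum_choose_pow', ← sum_choose, Finset.mul_sum, ← Finset.sum_sub_distrib]
    exact Finset.sum_congr rfl fun k _ => by simp only [H]; ring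
  have t0 := Icc_split M 0 (by omega) H
  have t1 := Icc_split M 1 (by omega) H
  have t2 := Icc_split M 2 (by omega) H
  have hH3 : 2 * ((∑ k ∈ Finset.Icc 3 M, (2 ^ (k - 1) - 2) * M.choose k : ℕ) : ℤ)
      = ∑ k ∈ Finset.Icc 3 M, H k := by
    rw [Nat.cast_sum, Finset.mul_sum]
    apply Finset.sum_congr rfl
    intro k hk
    have hk3 := (Finset.mem_Icc.1 hk).1
    obtain ⟨j, rfl⟩ : ∃ j, k = j + 1 := ⟨k - 1, by omega⟩
    have h2 : 2 ≤ 2 ^ j := by
      calc 2 = 2 ^ 1 := rfl
        _ ≤ 2 ^ j := Nat.pow_le_pow_right (by norm_num) (by omega)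
    simp only [H, Nat.add_sub_cancel]
    push_cast [Nat.cast_sub h2]
    ring
  have hd : ∀ a, ((∑ k ∈ Finset.Icc a M, M.choose k *
      ∑ j ∈ Finset.Icc 2 (M - k), (M - k).choose j : ℕ) : ℤ) = ∑ k ∈ Finset.Icc a M, F k := by
    intro a
    rw [Nat.cast_sum]
    apply Finset.sum_congr rfl
    intro k _
    rw [Nat.cast_mul, inner_eq]
  have hr : (rhs 2 (M + 1) : ℤ) = 2 * ∑ k ∈ Finset.Icc 1 M, F k
      + 2 * ∑ k ∈ Finset.Icc 2 M, F k
      + ((∑ k ∈ Finset.Icc 3 M, (2 ^ (k - 1) - 2) * M.choose k : ℕ) : ℤ) := by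
    rw [rhs, Nat.add_sub_cancel, Nat.cast_add, Nat.cast_add, Nat.cast_mul, Nat.cast_mul, hd, hd]
    norm_num
  have hF0' : F 0 = 2 ^ M - 1 - M := by simp [F]
  have hF1' : 2 * F 1 = M * (2 ^ M - 2 - 2 * (M - 1)) := by
    simp only [F, Nat.choose_one_right]
    rw [Nat.cast_sub (by omega : 1 ≤ M)]
    have : (2 : ℤ) ^ M = 2 * 2 ^ (M - 1) := by
      rw [← pow_succ', Nat.sub_add_cancel (by omega)]
    rw [this]
    push_cast
    ring
  have hH0' : H 0 = -3 := by simp [H]
  have hH1' : H 1 = -2 * M := by simp [H]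
  have hH2' : H 2 = 0 := by simp [H]
  rw [hr]
  simp only [zero_add, Nat.reduceAdd] at s0 s1 t0 t1 t2
  linarith

/-- closed form -/
theorem flat3_closed (m : ℕ) : 2 * flat3 (m + 1) + (6 * m + 20) * 2 ^ m
    = 9 * 3 ^ m + 4 * m ^ 2 + 10 * m + 11 := by
  rw [flat3_eq, f3]

theorem flat3_eq_rhs {n : ℕ} (hn : 1 ≤ n) : flat3 n = rhs 2 n := by
  obtain ⟨m, rfl⟩ : ∃ m, n = m + 1 := ⟨n - 1, by omega⟩
  have h1 := flat3_closed m
  have h2 := rhs_closed m
  have h3 : (2 * (flat3 (m + 1) : ℤ)) + (6 * m + 20) * 2 ^ m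
      = 9 * 3 ^ m + 4 * m ^ 2 + 10 * m + 11 := by exact_mod_cast h1
  have : (flat3 (m + 1) : ℤ) = rhs 2 (m + 1) := by linarith
  exact_mod_cast this

theorem flat3_five : flat3 5 = 70 := by
  rw [flat3_eq_rhs (by norm_num)]
  decide

theorem rhs_one_five : rhs 1 5 = 64 := by decide

end Pool.Agent.R804.Flat
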