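import Mathlib

/-! Flattened Stirling permutations: the succession rule. -/

namespace Pool.Agent.R804.Flat

/-- leading values of the runs after the first one, for the word `y :: t` -/
def T : ℕ → List ℕ → List ℕ
  | _, [] => []
  | y, x :: t => if y ≤ x then T x t else x :: T x t

/-- the number of splitting sites of the word `y :: t` -/
def st : ℕ → List ℕ → ℕ
  | _, [] => 0
  | y, x :: t => (if y ≤ x ∧ ∀ z ∈ T x t, x ≤ z then 1 else 0) + st x t

/-- all insertions of `N N` -/
def I (N : ℕ) : List ℕ → List (List ℕ)
  | [] => [[N, N]]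
  | x :: t => (N :: N :: x :: t) :: (I N t).map (fun t' => x :: t')

lemma mem_I {N : ℕ} {t t' : List ℕ} :
    t' ∈ I N t ↔ ∃ u v, t = u ++ v ∧ t' = u ++ N :: N :: v := by
  induction t generalizing t' with
  | nil =>
    constructor
    · intro h
      refine ⟨[], [], rfl, ?_⟩
      simpa [I] using h
    · rintro ⟨u, v, h, rfl⟩
      obtain ⟨rfl, rfl⟩ := List.append_eq_nil_iff.1 h.symm
      simp [I]
  | cons x t ih =>
    constructor
    · intro h
      simp only [I, List.mem_cons, List.mem_map] at h
      rcases h with rfl | ⟨t1, h1, rfl⟩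
      · exact ⟨[], x :: t, rfl, rfl⟩
      · obtain ⟨u, v, rfl, rfl⟩ := ih.1 h1
        exact ⟨x :: u, v, rfl, rfl⟩
    · rintro ⟨u, v, h, rfl⟩
      rcases u with _ | ⟨a, u⟩
      · simp only [List.nil_append] at h
        subst h
        simp [I]
      · simp only [List.cons_append, List.cons.injEq] at h
        obtain ⟨rfl, rfl⟩ := h
        simp only [I, List.mem_cons, List.mem_map]
        right
        exact ⟨u ++ N :: N :: v, ih.2 ⟨u, v, rfl, rfl⟩, rfl⟩

lemma T_NN {N : ℕ} {y x : ℕ} {t : List ℕ} (hy : y ≤ N) (hx : x < N) :
    T y (N :: N :: x :: t) = x :: T x t := by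
  simp [T, hy, not_le.2 hx]

lemma T_sub {N : ℕ} {t : List ℕ} : ∀ {y : ℕ}, y ≤ N → (∀ z ∈ t, z < N) →
    ∀ t' ∈ I N t, (T y t).Sublist (T y t') := by
  induction t with
  | nil => intro y _ _ t' _; simp [T]
  | cons x t ih =>
    intro y hy ht t' ht'
    have hx : x < N := ht x (by simp)
    simp only [I, List.mem_cons, List.mem_map] at ht'
    rcases ht' with rfl | ⟨t1, h1, rfl⟩
    · rw [T_NN hy hx]
      simp only [T]
      split_ifs
      · exact List.sublist_cons_self _ _
      · exact List.Sublist.refl _
    · have := ih hx.le (fun z hz => ht z (by simp [hz])) t1 h1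
      simp only [T]
      split_ifs
      · exact this
      · exact this.cons_cons x

lemma T_ge {N : ℕ} {t : List ℕ} : ∀ {y c : ℕ}, y ≤ N → c ≤ y → (∀ z ∈ t, z < N) →
    ∀ t' ∈ I N t, (∀ z ∈ T y t, c ≤ z) → (∀ z ∈ T y t', c ≤ z) := by
  induction t with
  | nil =>
    intro y c hy _ _ t' ht' _
    simp only [I, List.mem_singleton] at ht'
    subst ht'
    simp [T, hy]
  | cons x t ih =>
    intro y c hy hc ht t' ht' hall
    have hx : x < N := ht x (by simp)
    simp only [I, List.mem_cons, List.mem_map] at ht'
    rcases ht' with rfl | ⟨t1, h1, rfl⟩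
    · rw [T_NN hy hx]
      by_cases hyx : y ≤ x
      · simp only [T, if_pos hyx] at hall
        intro z hz
        rcases List.mem_cons.1 hz with rfl | hz
        · exact hc.trans hyx
        · exact hall z hz
      · simp only [T, if_neg hyx] at hall
        exact hall
    · by_cases hyx : y ≤ x
      · simp only [T, if_pos hyx] at hall ⊢
        exact ih hx.le (hc.trans hyx) (fun z hz => ht z (by simp [hz])) t1 h1 hall
      · simp only [T, if_neg hyx] at hall ⊢
        intro z hz
        rcases List.mem_cons.1 hz with rfl | hz
        · exact hall _ (by simp)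
        · exact ih hx.le (hall _ (by simp)) (fun z hz => ht z (by simp [hz])) t1 h1
            (fun z hz => hall z (by simp [hz])) z hz

lemma T_ge_iff {N : ℕ} {t : List ℕ} {y c : ℕ} (hy : y ≤ N) (hc : c ≤ y)
    (ht : ∀ z ∈ t, z < N) {t' : List ℕ} (ht' : t' ∈ I N t) :
    (∀ z ∈ T y t', c ≤ z) ↔ (∀ z ∈ T y t, c ≤ z) :=
  ⟨fun h z hz => h z ((T_sub hy ht t' ht').subset hz), T_ge hy hc ht t' ht'⟩

/-- the succession rule -/
theorem succ_rule {N : ℕ} {t : List ℕ} : ∀ {y : ℕ} (Φ : ℕ → ℕ → ℕ), y < N → (∀ z ∈ t, z < N) →
    (T y t).Pairwise (· ≤ ·) →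
    (((I N t).filter (fun t' => decide ((T y t').Pairwise (· ≤ ·)))).map
      (fun t' => Φ (T y t').length (st y t'))).sum
    = Φ (T y t).length (st y t + 2) + (T y t).length * Φ (T y t).length (st y t)
      + st y t * Φ ((T y t).length + 1) (st y t - 1) := by
  induction t with
  | nil =>
    intro y Φ hy _ _
    simp [I, T, st, hy.le]
  | cons x t ih =>
    intro y Φ hy ht hp
    have hx : x < N := ht x (by simp)
    have ht1 : ∀ z ∈ t, z < N := fun z hz => ht z (by simp [hz])
    have hst : st y (N :: N :: x :: t) = st x t := by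
      simp [st, T, not_le.2 hx]
    rw [I, List.filter_cons]
    by_cases hyx : y ≤ x
    · -- same run
      have hTy : T y (x :: t) = T x t := by simp [T, hyx]
      rw [hTy] at hp
      set δ : ℕ := if ∀ z ∈ T x t, x ≤ z then 1 else 0 with hδ
      have hsy : st y (x :: t) = δ + st x t := by simp [st, hyx, hδ]
      have hrest : ((((I N t).map (fun t' => x :: t')).filter
          (fun t' => decide ((T y t').Pairwise (· ≤ ·)))).map
          (fun t' => Φ (T y t').length (st y t'))).sum
          = (((I N t).filter (fun t' => decide ((T x t').Pairwise (· ≤ ·)))).map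
          (fun t' => Φ (T x t').length (δ + st x t'))).sum := by
        rw [List.filter_map, List.map_map]
        have e1 : ((fun t' => decide ((T y t').Pairwise (· ≤ ·))) ∘ fun t' => x :: t')
            = (fun t' => decide ((T x t').Pairwise (· ≤ ·))) := by
          funext t'; simp [T, hyx]
        rw [e1]
        congr 1
        apply List.map_congr_left
        intro t' ht'
        have hmem : t' ∈ I N t := (List.mem_filter.1 ht').1
        have hiff := T_ge_iff (c := x) hx.le le_rfl ht1 hmem
        simp only [Function.comp, T, st, hyx, true_and, hδ, hiff, if_true]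
      have IH := ih (y := x) (fun k s => Φ k (δ + s)) hx ht1 hp
      by_cases hc : ∀ z ∈ T x t, x ≤ z
      · have hd1 : δ = 1 := by rw [hδ, if_pos hc]
        have hdec : decide ((T y (N :: N :: x :: t)).Pairwise (· ≤ ·)) = true := by
          rw [T_NN hy.le hx]
          simpa using ⟨hc, hp⟩
        rw [if_pos hdec, List.map_cons, List.sum_cons, hrest, IH, T_NN hy.le hx, hst, hTy, hsy,
          hd1]
        rw [List.length_cons]
        have e0 : 1 + st x t - 1 = st x t := by omega
        rw [e0]
        rcases Nat.eq_zero_or_pos (st x t) with h0 | h0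
        · rw [h0]; ring
        · rw [show 1 + (st x t - 1) = st x t by omega]
          ring_nf
      · have hd0 : δ = 0 := by rw [hδ, if_neg hc]
        have hdec : ¬ decide ((T y (N :: N :: x :: t)).Pairwise (· ≤ ·)) = true := by
          rw [T_NN hy.le hx]
          simp only [decide_eq_true_eq, List.pairwise_cons]
          exact fun h => hc h.1
        rw [if_neg hdec, hrest, IH, hTy, hsy, hd0]
        simp
    · -- new run
      have hTy : T y (x :: t) = x :: T x t := by simp [T, hyx]
      rw [hTy, List.pairwise_cons] at hp
      have hsy : st y (x :: t) = st x t := by simp [st, hyx]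
      have hdec : decide ((T y (N :: N :: x :: t)).Pairwise (· ≤ ·)) = true := by
        rw [T_NN hy.le hx]
        simpa using hp
      have hrest : ((((I N t).map (fun t' => x :: t')).filter
          (fun t' => decide ((T y t').Pairwise (· ≤ ·)))).map
          (fun t' => Φ (T y t').length (st y t'))).sum
          = (((I N t).filter (fun t' => decide ((T x t').Pairwise (· ≤ ·)))).map
          (fun t' => Φ ((T x t').length + 1) (st x t'))).sum := by
        rw [List.filter_map, List.map_map]
        have e1 : (I N t).filter ((fun t' => decide ((T y t').Pairwise (· ≤ ·))) ∘ fun t' => x :: t')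
            = (I N t).filter (fun t' => decide ((T x t').Pairwise (· ≤ ·))) := by
          apply List.filter_congr
          intro t' ht'
          have h2 := (T_ge_iff (c := x) hx.le le_rfl ht1 ht').2 hp.1
          simp only [Function.comp, T, if_neg hyx, List.pairwise_cons]
          congr 1
          exact propext ⟨fun h => h.2, fun h => ⟨h2, h⟩⟩
        rw [e1]
        congr 1
        apply List.map_congr_left
        intro t' ht'
        simp [Function.comp, T, hyx, st]
      have IH := ih (y := x) (fun k s => Φ (k + 1) s) hx ht1 hp.2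
      rw [if_pos hdec, List.map_cons, List.sum_cons, hrest, IH, T_NN hy.le hx, hst, hTy, hsy]
      simp only [List.length_cons]
      ring

end Pool.Agent.R804.Flat
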