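import Pool.Agent.R804.Flat.Succ

/-! Flattened Stirling permutations: words, runs, and the generating tree. -/

namespace Pool.Agent.R804.Flat

/-- `w` is a Stirling permutation of order `n`: each of `1, …, n` occurs exactly twice, there
are no other letters, and every letter strictly between the two copies of `i` exceeds `i`. -/
def IsStirling (n : ℕ) (w : List ℕ) : Prop :=
  (∀ i, w.count i = if 1 ≤ i ∧ i ≤ n then 2 else 0) ∧
    ∀ i x, [i, x, i].Sublist w → i < x

/-- the runs: maximal contiguous weakly increasing subwords, from left to right -/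
def runs (w : List ℕ) : List (List ℕ) := w.splitBy (fun a b => decide (a ≤ b))

/-- the leading values of the runs -/
def leads (w : List ℕ) : List ℕ := (runs w).map (fun r => r.headD 0)

/-- the leading values of the runs are weakly increasing -/
def IsFlattened (w : List ℕ) : Prop := (leads w).Pairwise (· ≤ ·)

lemma loop_leads (l : List ℕ) : ∀ (a : ℕ) (g : List ℕ) (gs : List (List ℕ)),
    (List.splitBy.loop (fun a b => decide (a ≤ b)) l a g gs).map (fun r => r.headD 0)
      = gs.reverse.map (fun r => r.headD 0) ++ (g.reverse ++ [a]).headD 0 :: T a l := by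
  induction l with
  | nil =>
    intro a g gs
    simp [List.splitBy.loop, T]
  | cons b l ih =>
    intro a g gs
    by_cases h : a ≤ b
    · have : List.splitBy.loop (fun a b => decide (a ≤ b)) (b :: l) a g gs
          = List.splitBy.loop (fun a b => decide (a ≤ b)) l b (a :: g) gs := by
        rw [List.splitBy.loop]
        simp [h]
      rw [this, ih]
      simp only [T, if_pos h]
      congr 2
      rcases hg : g.reverse with _ | ⟨c, g'⟩
      · simp [hg]
      · simp [hg]
    · have : List.splitBy.loop (fun a b => decide (a ≤ b)) (b :: l) a g gs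
          = List.splitBy.loop (fun a b => decide (a ≤ b)) l b [] ((a :: g).reverse :: gs) := by
        rw [List.splitBy.loop]
        simp [h]
      rw [this, ih]
      simp [T, h]

lemma leads_cons (y : ℕ) (t : List ℕ) : leads (y :: t) = y :: T y t := by
  rw [leads, runs, List.splitBy]
  rw [loop_leads]
  simp

lemma leads_nil : leads [] = [] := rfl

lemma length_runs (w : List ℕ) : (runs w).length = (leads w).length := by
  simp [leads]

/-- children of a word: all flattened words obtained by inserting `N N` after the first
letter -/
def children (N : ℕ) : List ℕ → List (List ℕ)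
  | [] => []
  | y :: t => ((I N t).filter (fun t' => decide ((T y t').Pairwise (· ≤ ·)))).map
      (fun t' => y :: t')

/-- the words of order `m + 1` -/
def L : ℕ → List (List ℕ)
  | 0 => [[1, 1]]
  | m + 1 => (L m).flatMap (children (m + 2))

lemma mem_le {n : ℕ} {w : List ℕ} (h : IsStirling n w) {x : ℕ} (hx : x ∈ w) :
    1 ≤ x ∧ x ≤ n := by
  by_contra hc
  have := h.1 x
  rw [if_neg hc] at this
  exact absurd (List.count_pos_iff.2 hx) (by omega)

/-- inserting keeps the Stirling property -/
lemma stirling_insert {n : ℕ} {u v : List ℕ} (h : IsStirling n (u ++ v)) :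
    IsStirling (n + 1) (u ++ (n + 1) :: (n + 1) :: v) := by
  have hN : ∀ x ∈ u ++ v, x < n + 1 := fun x hx => Nat.lt_succ_of_le (mem_le h hx).2
  have hNu : n + 1 ∉ u := fun hh => lt_irrefl _ (hN _ (by simp [hh]))
  have hNv : n + 1 ∉ v := fun hh => lt_irrefl _ (hN _ (by simp [hh]))
  refine ⟨fun i => ?_, fun i x hsub => ?_⟩
  · have h1 := h.1 i
    rw [List.count_append] at h1
    rw [List.count_append, List.count_cons, List.count_cons]
    by_cases hi : i = n + 1
    · subst hi
      rw [List.count_eq_zero_of_not_mem hNu, List.count_eq_zero_of_not_mem hNv]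
      simp
    · have hi' : ¬ (n + 1 = i) := fun e => hi e.symm
      simp only [beq_iff_eq, hi', if_false, add_zero]
      rw [h1]
      by_cases h2 : 1 ≤ i ∧ i ≤ n
      · rw [if_pos h2, if_pos ⟨h2.1, by omega⟩]
      · rw [if_neg h2, if_neg (by omega)]
  · have himem : i ∈ u ++ (n + 1) :: (n + 1) :: v := hsub.subset (by simp)
    have hile : i ≤ n + 1 := by
      simp only [List.mem_append, List.mem_cons] at himem
      rcases himem with h3 | h3 | h3 | h3
      · exact (hN i (by simp [h3])).le
      · exact h3.le
      · exact h3.le
      · exact (hN i (by simp [h3])).le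
    by_cases hi : i = n + 1
    · exfalso
      subst hi
      by_cases hx : x = n + 1
      · subst hx
        have := hsub.count_le (n + 1)
        have e1 := List.count_eq_zero_of_not_mem hNu
        have e2 := List.count_eq_zero_of_not_mem hNv
        simp only [List.count_append, List.count_cons, List.count_nil, e1, e2, beq_self_eq_true,
          if_true] at this
        omega
      · obtain ⟨l1, l2, e, s1, s2⟩ := List.sublist_append_iff.1 hsub
        rcases l1 with _ | ⟨a, l1⟩
        · simp only [List.nil_append] at e
          rw [← e] at s2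
          rw [List.cons_sublist_cons] at s2
          have s3 : [x, n + 1].Sublist v := by
            rcases List.sublist_cons_iff.1 s2 with s | ⟨r, hr, _⟩
            · exact s
            · simp only [List.cons.injEq] at hr
              exact absurd hr.1 hx
          exact hNv (s3.subset (by simp))
        · simp only [List.cons_append, List.cons.injEq] at e
          apply hNu
          apply s1.subset
          rw [e.1]
          simp
    · by_cases hx : x = n + 1
      · omega
      · apply h.2 i x
        have h4 := hsub.filter (fun z => decide (z ≠ n + 1))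
        have h5 : [i, x, i].filter (fun z => decide (z ≠ n + 1)) = [i, x, i] := by
          simp [hi, hx]
        have h6 : (u ++ (n + 1) :: (n + 1) :: v).filter (fun z => decide (z ≠ n + 1))
            = u ++ v := by
          rw [List.filter_append, List.filter_cons, List.filter_cons]
          simp only [ne_eq, not_true_eq_false, decide_false, Bool.false_eq_true, if_false]
          rw [← List.filter_append]
          apply List.filter_eq_self.2
          intro z hz
          simpa using (hN z hz).ne
        rw [h5, h6] at h4
        exact h4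

/-- the two largest letters are adjacent and removing them keeps the Stirling property -/
lemma stirling_remove {n : ℕ} {w : List ℕ} (h : IsStirling (n + 1) w) :
    ∃ u v, w = u ++ (n + 1) :: (n + 1) :: v ∧ IsStirling n (u ++ v) := by
  have hc : w.count (n + 1) = 2 := by rw [h.1, if_pos ⟨by omega, le_rfl⟩]
  have h1 : n + 1 ∈ w := List.count_pos_iff.1 (by omega)
  obtain ⟨a, b, rfl, ha⟩ := List.eq_append_cons_of_mem h1
  have hcb : b.count (n + 1) = 1 := by
    rw [List.count_append, List.count_cons, List.count_eq_zero_of_not_mem ha] at hc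
    simp only [beq_self_eq_true, if_true] at hc
    omega
  have h2 : n + 1 ∈ b := List.count_pos_iff.1 (by omega)
  obtain ⟨c, d, rfl, hcN⟩ := List.eq_append_cons_of_mem h2
  have hd : n + 1 ∉ d := by
    intro hd
    have := List.count_pos_iff.2 hd
    rw [List.count_append, List.count_cons] at hcb
    simp only [beq_self_eq_true, if_true] at hcb
    omega
  have hcnil : c = [] := by
    rcases c with _ | ⟨x, c⟩
    · rfl
    · exfalso
      have hsub : [n + 1, x, n + 1].Sublist (a ++ (n + 1) :: (x :: c ++ (n + 1) :: d)) := by
        refine List.Sublist.trans ?_ (List.sublist_append_right _ _)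
        refine List.Sublist.cons_cons _ ?_
        refine List.Sublist.cons_cons _ ?_
        exact (List.singleton_sublist.2 (by simp))
      have h3 := h.2 _ _ hsub
      have h4 := (mem_le h (x := x) (by simp)).2
      omega
  subst hcnil
  refine ⟨a, d, by simp, fun i => ?_, fun i x hs => ?_⟩
  · have h3 := h.1 i
    simp only [List.nil_append, List.count_append, List.count_cons] at h3 ⊢
    by_cases hi : i = n + 1
    · subst hi
      rw [List.count_eq_zero_of_not_mem ha, List.count_eq_zero_of_not_mem hd]
      simp
    · have hi' : ¬ (n + 1 = i) := fun e => hi e.symm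
      simp only [beq_iff_eq, hi', if_false, add_zero] at h3
      rw [h3]
      by_cases h5 : 1 ≤ i ∧ i ≤ n
      · rw [if_pos h5, if_pos ⟨h5.1, by omega⟩]
      · rw [if_neg h5, if_neg (by omega)]
  · apply h.2 i x
    refine hs.trans ?_
    simp only [List.nil_append]
    exact List.Sublist.append (List.Sublist.refl _)
      ((List.sublist_cons_self _ _).trans (List.sublist_cons_self _ _))

lemma flattened_cons {y : ℕ} {t : List ℕ} :
    IsFlattened (y :: t) ↔ (∀ z ∈ T y t, y ≤ z) ∧ (T y t).Pairwise (· ≤ ·) := by
  rw [IsFlattened, leads_cons, List.pairwise_cons]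

lemma mem_children {N : ℕ} {w w' : List ℕ} (hw : ∀ x ∈ w, x < N) (hfl : IsFlattened w) :
    w' ∈ children N w ↔
      IsFlattened w' ∧ ∃ u v, u ≠ [] ∧ w = u ++ v ∧ w' = u ++ N :: N :: v := by
  rcases w with _ | ⟨y, t⟩
  · simp only [children, List.not_mem_nil, false_iff]
    rintro ⟨_, u, v, hu, h, _⟩
    exact hu (List.append_eq_nil_iff.1 h.symm).1
  · have hy : y < N := hw y (by simp)
    have ht : ∀ z ∈ t, z < N := fun z hz => hw z (by simp [hz])
    have hfl' := flattened_cons.1 hfl
    constructor
    · intro h
      simp only [children, List.mem_map, List.mem_filter, decide_eq_true_eq] at h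
      obtain ⟨t', ⟨h1, h2⟩, rfl⟩ := h
      refine ⟨flattened_cons.2 ⟨T_ge hy.le le_rfl ht t' h1 hfl'.1, h2⟩, ?_⟩
      obtain ⟨u, v, rfl, rfl⟩ := mem_I.1 h1
      exact ⟨y :: u, v, by simp, rfl, rfl⟩
    · rintro ⟨h1, u, v, hu, h2, rfl⟩
      rcases u with _ | ⟨a, u⟩
      · exact absurd rfl hu
      simp only [List.cons_append, List.cons.injEq] at h2
      obtain ⟨rfl, rfl⟩ := h2
      simp only [children, List.mem_map, List.mem_filter, decide_eq_true_eq]
      rw [List.cons_append] at h1
      exact ⟨u ++ N :: N :: v, ⟨mem_I.2 ⟨u, v, rfl, rfl⟩, (flattened_cons.1 h1).2⟩, rfl⟩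

lemma flattened_remove {N : ℕ} {u v : List ℕ} (hu : u ≠ []) (hw : ∀ x ∈ u ++ v, x < N)
    (h : IsFlattened (u ++ N :: N :: v)) : IsFlattened (u ++ v) := by
  rcases u with _ | ⟨y, u⟩
  · exact absurd rfl hu
  rw [List.cons_append] at h ⊢
  have hy : y < N := hw y (by simp)
  have ht : ∀ z ∈ u ++ v, z < N := fun z hz => hw z (by
    rw [List.cons_append]; exact List.mem_cons_of_mem _ hz)
  have h1 := T_sub (N := N) hy.le ht (u ++ N :: N :: v) (mem_I.2 ⟨u, v, rfl, rfl⟩)
  have h2 := flattened_cons.1 h
  exact flattened_cons.2 ⟨fun z hz => h2.1 z (h1.subset hz), h2.2.sublist h1⟩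

theorem mem_L (m : ℕ) : ∀ w, w ∈ L m ↔ IsStirling (m + 1) w ∧ IsFlattened w := by
  induction m with
  | zero =>
    intro w
    simp only [L, List.mem_singleton]
    constructor
    · rintro rfl
      refine ⟨⟨fun i => ?_, fun i x h => ?_⟩, ?_⟩
      · by_cases hi : i = 1
        · subst hi; rfl
        · have hi' : ¬ (1 = i) := fun e => hi e.symm
          rw [if_neg (by omega)]
          simp [hi']
      · have := h.length_le
        simp at this
      · rw [flattened_cons]
        simp [T]
    · rintro ⟨h, _⟩
      have h1 : w.count 1 = 2 := by rw [h.1]; simp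
      have h2 : ∀ b ∈ w, b = 1 := fun b hb => by
        have := mem_le h hb
        omega
      have h3 : w = List.replicate w.length 1 := List.eq_replicate_iff.2 ⟨rfl, h2⟩
      rw [h3, List.count_replicate_self] at h1
      rw [h3, h1]
      rfl
  | succ m ih =>
    intro w'
    simp only [L, List.mem_flatMap]
    constructor
    · rintro ⟨w, hw, hw'⟩
      obtain ⟨h1, h2⟩ := (ih w).1 hw
      have hlt : ∀ x ∈ w, x < m + 2 := fun x hx => by
        have := (mem_le h1 hx).2
        omega
      obtain ⟨h3, u, v, hu, rfl, rfl⟩ := (mem_children hlt h2).1 hw'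
      exact ⟨stirling_insert h1, h3⟩
    · rintro ⟨h1, h2⟩
      obtain ⟨u, v, rfl, h3⟩ := stirling_remove h1
      have hlt : ∀ x ∈ u ++ v, x < m + 2 := fun x hx => by
        have := (mem_le h3 hx).2
        omega
      have hu : u ≠ [] := by
        rintro rfl
        simp only [List.nil_append] at h1 h2 h3 hlt
        rcases v with _ | ⟨x, v⟩
        · have := h3.1 1
          simp at this
        · have hx := hlt x (by simp)
          rw [flattened_cons] at h2
          have h4 := h2.1 x (by
            simp [T, not_le.2 hx])
          omega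
      have h4 := flattened_remove hu hlt h2
      exact ⟨u ++ v, (ih _).2 ⟨h3, h4⟩, (mem_children hlt h4).2 ⟨h2, u, v, hu, rfl, rfl⟩⟩

lemma nodup_I {N : ℕ} {t : List ℕ} (ht : ∀ z ∈ t, z < N) : (I N t).Nodup := by
  induction t with
  | nil => simp [I]
  | cons x t ih =>
    rw [I, List.nodup_cons]
    refine ⟨?_, ?_⟩
    · intro h
      obtain ⟨t', _, h'⟩ := List.mem_map.1 h
      simp only [List.cons.injEq] at h'
      have := ht x (by simp)
      omega
    · exact (ih (fun z hz => ht z (by simp [hz]))).map (fun a b h => by simpa using h)

lemma filter_child {N : ℕ} {w w' : List ℕ} (hw : ∀ x ∈ w, x < N) (h : w' ∈ children N w) :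
    w'.filter (fun z => decide (z ≠ N)) = w := by
  rcases w with _ | ⟨y, t⟩
  · simp [children] at h
  · simp only [children, List.mem_map, List.mem_filter, decide_eq_true_eq] at h
    obtain ⟨t', ⟨h1, _⟩, rfl⟩ := h
    obtain ⟨u, v, rfl, rfl⟩ := mem_I.1 h1
    have e : (y :: (u ++ N :: N :: v)).filter (fun z => decide (z ≠ N))
        = (y :: (u ++ v)).filter (fun z => decide (z ≠ N)) := by
      simp [List.filter_cons]
    rw [e]
    apply List.filter_eq_self.2
    intro z hz
    simpa using (hw z hz).ne

theorem nodup_L (m : ℕ) : (L m).Nodup := by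
  induction m with
  | zero => simp [L]
  | succ m ih =>
    have hlt : ∀ w ∈ L m, ∀ x ∈ w, x < m + 2 := fun w hw x hx => by
      have := (mem_le ((mem_L m w).1 hw).1 hx).2
      omega
    rw [L, List.nodup_flatMap]
    refine ⟨fun w hw => ?_, ?_⟩
    · rcases w with _ | ⟨y, t⟩
      · simp [children]
      · rw [children]
        refine List.Nodup.map (fun a b h => by simpa using h) ?_
        exact (nodup_I (fun z hz => hlt _ hw z (by simp [hz]))).filter _
    · refine List.Pairwise.imp_of_mem ?_ ih
      intro a b ha hb hab
      simp only [Function.onFun, List.disjoint_left]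
      intro w' h1 h2
      exact hab ((filter_child (hlt a ha) h1).symm.trans (filter_child (hlt b hb) h2))

end Pool.Agent.R804.Flat
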